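import Mathlib
import Pool.Agent.N855.AF.Main

/-!
# Quotients of Dedekind zeta functions when the nonabelian composition factors are large
alternating groups

`Pool.Agent.H541R3.ART.ArtinData G s₀` is a family of functions with the formal properties of the
Artin L-functions of a Galois extension `E/K` with group `G` near a point `s₀ ≠ 1`: functions
`L χ` for the irreducible characters `χ` of `G`, meromorphic and not identically zero near `s₀`
(Brauer), and `Lin H ψ` for the linear characters `ψ` of the subgroups `H`, without pole at `s₀`
(Artin reciprocity and Hecke), such that `Lin H ψ` is the product of the `L χ ^ ⟨χ|_H, ψ⟩`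
(induction). In particular `Lin H 1` stands for the Dedekind zeta function of the fixed field of
`H`, and `Lin H ψ` for a Hecke L-function of this field.

`Pool.Agent.N855.AF.Factors r N` says that every nonabelian composition factor `S` of the finite
group `N` (every nonabelian simple quotient of a subnormal subgroup of `N`, `SubQ N S`) satisfies
`Pool.Agent.N855.AF.Allow r S`: it is isomorphic to `A_m` with `r < (2 ^ j - 1) ⌊m / 2 ^ j⌋` for some
`j ≥ 3`; or it has the following two properties.
* For every perfect finite group `Q` with `Q / Z(Q)` isomorphic to `S`, every virtual character of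
  `Q` of degree at most `r` which has a nonnegative integer multiplicity against every linear
  character of every subgroup is constant (`Pool.Agent.Y788.V.RigidV r Q`).
* If `r ≥ 4`, then `S` is not a quotient of an irreducible subgroup of `Sp_{2n}(p)` with `p` prime,
  `n ≥ 1` and `p ^ n ≤ r` (`Pool.Agent.Y788.SympFree r S`; the symplectic group is described as the
  group of isometries of a nondegenerate alternating pairing, with values in the nonzero complex
  numbers, on an elementary abelian group of order `p ^ (2 n)`).

`Pool.Agent.TH820.BuiltSC P Q` says that the group `Q` (here: its subgroup `⊤`) is obtained from the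
trivial group by finitely many steps `M ≤ M'`, `M` and `M'` normal, such that `M' / M` is abelian or
generated by finitely many pairwise commuting subgroups, each a homomorphic image of a finite group
with the property `P`. `Pool.Agent.TH820.FacO r S` holds if all Heilbronn functions of degree at most
`r` on `S` are constant, for instance for `A_m` and classical groups in characteristic two of large
rank, and for `SL_n(q)`, `q` a power of an odd prime `p`, `n ≥ 3`, if `r < n`, or if `p ≤ n` and
`r gcd(n, q - 1) < q ^ (n - 1) - 1`.

The idea: all zeros of `ζ_E` at `s₀` come from the fixed field of `N`, because the Heilbronn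
function of `E/K` at `s₀` is constant on `N`. The group theory (reduction of a perfect group to its
quasi-simple subquotients, covers of alternating groups) is in the starting library
(`Pool.Agent.Y788`), as are the consequences of equal orders (`Pool.Agent.TH820`).
-/

set_option autoImplicit false

open Pool.Agent.H541R3.ART Pool.Agent.Y788 Pool.Agent.N855.AF

/-- Let `G` be the Galois group of `E/K` and let `r` be the order of `ζ_E` at `s₀`.

(1) If every nonabelian composition factor of `G` is allowed, for instance an alternating group
`A_m` with `r < (2 ^ j - 1) ⌊m / 2 ^ j⌋`, `j ≥ 3`, then for ALL intermediate fields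
`K ⊆ F = E ^ M ⊆ L = E ^ U ⊆ E` the order of `ζ_F` at `s₀` is at most that of `ζ_L`: the quotient
`ζ_L / ζ_F` has no pole at `s₀`. More generally this holds for the L-functions of a linear character
`ρ` of `M` over `F` and of `ρ|_U` over `L`. There is no condition on the composition factors of `M`,
nor on the extensions of the composition factors in `G`.

(2) Let `N` be a perfect normal subgroup of `G` all of whose nonabelian composition factors are
allowed. Then `L χ` is holomorphic and nonzero at `s₀` for every irreducible `χ` which is nontrivial
on `N`; `ζ_E` and `ζ_{E ^ N}` have the same order at `s₀`; `ζ_L` and `ζ_{L ∩ E ^ N}` have the same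
order at `s₀` for every intermediate field `L = E ^ U` (more generally the L-functions of a character
of `U N` trivial on `N` and of its restriction to `U`); the Hecke L-functions over `L` of the
characters of `U` which are nontrivial on `U ∩ N` are nonzero at `s₀`; and `ζ_L / ζ_F`, `F = E ^ M`, has
no pole at `s₀` if `M / (M ∩ N)` is solvable, or built from abelian groups and groups with
`FacO r`. -/
theorem Pool.Agent.Results.MP_9fc8a5_nt.LargeAlternatingFactors.result
    (G : Type) [Group G] [Finite G] (s₀ : ℂ) (A : ArtinData G s₀) (r : ℕ)
    (hr : meromorphicOrderAt (A.Lin ⊥ 1) s₀ = (r : WithTop ℤ)) :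
    (Factors r G → ∀ (U M : Subgroup G) (hUM : U ≤ M) (ρ : M →* ℂˣ),
      meromorphicOrderAt (A.Lin M ρ) s₀
        ≤ meromorphicOrderAt (A.Lin U (ρ.comp (Subgroup.inclusion hUM))) s₀) ∧
    ∀ (N : Subgroup G) [N.Normal], Group.IsPerfect N → Factors r N →
      (∀ χ ∈ Irr G, (∃ n ∈ N, χ n ≠ χ 1) → meromorphicOrderAt (A.L χ) s₀ = 0) ∧
      meromorphicOrderAt (A.Lin N 1) s₀ = (r : WithTop ℤ) ∧
      (∀ (U : Subgroup G) (ρ : (U ⊔ N : Subgroup G) →* ℂˣ),
        (∀ x : (U ⊔ N : Subgroup G), (x : G) ∈ N → ρ x = 1) →
        meromorphicOrderAt (A.Lin U (ρ.comp (Subgroup.inclusion le_sup_left))) s₀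
          = meromorphicOrderAt (A.Lin (U ⊔ N) ρ) s₀) ∧
      (∀ (U : Subgroup G) (ψ : U →* ℂˣ), (∃ x : U, (x : G) ∈ N ∧ ψ x ≠ 1) →
        meromorphicOrderAt (A.Lin U ψ) s₀ = 0) ∧
      ∀ (U M : Subgroup G) (hUM : U ≤ M),
        (Group.IsSolvable (M ⧸ N.subgroupOf M) ∨
          Pool.Agent.TH820.BuiltSC (Pool.Agent.TH820.FacO r)
            (⊤ : Subgroup (M ⧸ N.subgroupOf M))) →
        ∀ ρ : M →* ℂˣ, meromorphicOrderAt (A.Lin M ρ) s₀
          ≤ meromorphicOrderAt (A.Lin U (ρ.comp (Subgroup.inclusion hUM))) s₀ :=
  ⟨fun hG => main_G A hr hG, fun N _ hp hN => main_N A hr N hp hN⟩
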