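import Mathlib
import Pool.Agent.N28.DD.Main

/-!
# Towers of fields, and what a minimal counterexample at a point looks like

`Pool.Agent.H541R3.ART.ArtinData G s₀` is a family of functions with the formal properties of the
Artin L-functions of a Galois extension `E/K` with group `G` near a point `s₀ ≠ 1`: functions
`L χ` for the irreducible characters `χ` of `G`, meromorphic and not identically zero near `s₀`
(Brauer), and `Lin H ψ` for the linear characters `ψ` of the subgroups `H`, without pole at `s₀`
(Artin reciprocity and Hecke), such that `Lin H ψ` is the product of the `L χ ^ ⟨χ|_H, ψ⟩`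
(induction). In particular `Lin H 1` stands for the Dedekind zeta function of the fixed field
`E ^ H`. Every finite extension `L/F` of number fields is `E ^ U / E ^ M` for a Galois extension
`E/K` and subgroups `U ≤ M`.

`Pool.Agent.N28.DD.OnePlusMonomial V`, for a subgroup `V` of the finite group `X`: the permutation
character of `X` on the cosets of `V` is `1 + ∑ c_i χ_i` with rational `c_i ≥ 0` and characters
`χ_i` induced from linear characters of subgroups.

`Pool.Agent.TH820.FacO r S` says that the finite group `S` is one of the following.
* `A_m` with `m ≥ 5` and `r < (2 ^ j - 1) ⌊m / 2 ^ j⌋` for some `j ≥ 2`; in characteristic two and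
  with explicit bounds for `r`: `SL_n(q)`, `Sp_{2n}(q)`, `Ω^±_{2n}(q)`, `SU_n(q)`.
* `SL_n(q)` for `q` a power of an odd prime `p` and `n ≥ 3`, if `r < n`, or if `p ≤ n` and
  `r gcd(n, q - 1) < q ^ (n - 1) - 1`.
* Any group with `Rigid r S`: every Heilbronn function of degree at most `r` on `S` is constant (a
  Heilbronn function is a class function whose restriction to every subgroup `H` has a nonnegative
  integer multiplicity against every linear character of `H`; its degree is its value at `1`).

`Pool.Agent.TH820.LayC P N` says that `N` is a normal subgroup generated by finitely many pairwise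
commuting subgroups, each a homomorphic image of a finite group with the property `P`.

`Pool.Agent.N28.DD.Step A U Γ` says that `U ≤ Γ` and the extension `E ^ U / E ^ Γ` is of one of the
following kinds:
* Galois (`U` normal in `Γ`);
* the permutation character of `Γ` on the cosets of `U` is `1` plus a nonnegative combination of
  monomial characters;
* there are subgroups `C ≤ B` normal in `Γ` with `C ≤ U`, `U B = Γ` and
  - `B / C` abelian, or
  - the Galois extension `E ^ C / E ^ B` has no new zeros at `s₀` (the orders of the two zeta
    functions are equal), or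
  - `B / C` is generated by commuting groups `S` with `FacO r`, where `r` is the order at `s₀` of
    the zeta function of `E ^ C` (not of the large field `E`).
-/

set_option autoImplicit false

open Pool.Agent.H541R3.ART Pool.Agent.N28.DD Pool.Agent.TH820

/-- (1) If `L = E ^ U` is obtained from `F = E ^ M` by a tower of extensions of the above kinds
(with different Galois closures), then `ζ_L / ζ_F` has no pole at `s₀`.

(2) If `ζ_L / ζ_F`, `L = E ^ U`, `F = E ^ M`, has a pole at `s₀`, then there are fields
`F ⊆ F' ⊂ L' ⊆ L` (`F' = E ^ Γ`, `L' = E ^ U'`), with no field strictly between `F'` and `L'`, and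
`Ê = E ^ C` Galois over `F'`, containing `L'`, such that
* `ζ_{L'} / ζ_{F'}` has a pole at `s₀`;
* the permutation character of `Γ` on the cosets of `U'` is not `1` plus a nonnegative combination
  of monomial characters;
* for every field `F' ⊆ D ⊂ Ê` (`D = E ^ B`) which is Galois over `F'` the following holds: `D` and
  `L'` are disjoint (`D ∩ L' = F'`, that is `U' B = Γ`), so that `Ê/F'` is the Galois closure of
  `L'/F'`; the group of `Ê/D` is not abelian, so that `Gal(Ê/F')` is a primitive permutation group
  without abelian normal subgroups; the order of `ζ_D` at `s₀` is strictly less than the order `r`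
  of `ζ_Ê`; and the group of `Ê/D` is not generated by commuting subgroups which are images of
  groups with `FacO r`. -/
theorem Pool.Agent.Results.MP_9fc8a5_nt.MinimalCounterexample.result
    (G : Type) [Group G] [Finite G] (s₀ : ℂ) (A : ArtinData G s₀) (U M : Subgroup G) (hUM : U ≤ M) :
    (Relation.ReflTransGen (Step A) U M →
      meromorphicOrderAt (A.Lin M 1) s₀ ≤ meromorphicOrderAt (A.Lin U 1) s₀) ∧
    (meromorphicOrderAt (A.Lin U 1) s₀ < meromorphicOrderAt (A.Lin M 1) s₀ →
      ∃ (U' Γ C : Subgroup G) (_ : (C.subgroupOf Γ).Normal), U ≤ U' ∧ U' < Γ ∧ Γ ≤ M ∧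
        (∀ V, U' ≤ V → V ≤ Γ → V = U' ∨ V = Γ) ∧ C ≤ U' ∧
        meromorphicOrderAt (A.Lin U' 1) s₀ < meromorphicOrderAt (A.Lin Γ 1) s₀ ∧
        ¬ OnePlusMonomial (U'.subgroupOf Γ) ∧
        ∀ B : Subgroup G, C < B → B ≤ Γ → (B.subgroupOf Γ).Normal →
          U' ⊔ B = Γ ∧ (∃ a ∈ B, ∃ b ∈ B, a * b * a⁻¹ * b⁻¹ ∉ C) ∧
          meromorphicOrderAt (A.Lin B 1) s₀ < meromorphicOrderAt (A.Lin C 1) s₀ ∧
          ∀ r : ℕ, meromorphicOrderAt (A.Lin C 1) s₀ = (r : WithTop ℤ) →
            ¬ LayC (FacO r) ((B.subgroupOf Γ).map (QuotientGroup.mk' (C.subgroupOf Γ)))) :=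
  ⟨fun h => chain_le A h, fun h => min_counter A U M hUM h⟩
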