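import Pool.Agent.N881.GW.Y3
import Pool.Agent.N881.GW.Y4

/-!
# The quotient of two Dedekind zeta functions and one-sided bounds in Gaussian windows

Let `L / K` be an extension of number fields and `ζ_L(s) / ζ_K(s) = ∑ c_n n^{-s}`.  The quotient is entire if and only if the Gaussian averages of the numbers `c_n / n` in
windows around `x` are `O(x^{-κ})` for ONE `κ > 1/2`.  If it has no real poles in `Re s > 0`, then a
bound from ONE side suffices.  This applies to all number fields `L` over `K = ℚ`.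
-/

set_option autoImplicit false

namespace Pool.Agent.Results.MP_9fc8a5_nt.OneSidedCriterion

open NumberField

/-- The number of ideals of norm `n` of the number field `F`. -/
noncomputable def ideals (F : Type) [Field F] [NumberField F] (n : ℕ) : ℕ :=
  Nat.card {I : Ideal (𝓞 F) // Ideal.absNorm I = n}

/-- The Dedekind zeta function of `F` on `Re s > 1`. -/
noncomputable def zeta (F : Type) [Field F] [NumberField F] (s : ℂ) : ℂ :=
  LSeries (fun n : ℕ => (ideals F n : ℂ)) s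

section

variable (K L : Type) [Field K] [Field L] [NumberField K] [NumberField L]

/-- `c_n` are the coefficients of `ζ_L / ζ_K`: the Dirichlet convolution with those of `ζ_K` gives
those of `ζ_L`. -/
def IsQuotient (c : ℕ → ℝ) : Prop :=
  c 0 = 0 ∧ ∀ n : ℕ, n ≠ 0 →
    (ideals L n : ℝ) = ∑ x ∈ n.divisorsAntidiagonal, (ideals K x.1 : ℝ) * c x.2

/-- `ζ_L / ζ_K` has an analytic continuation to `Re s > 1 - δ`. -/
def Continues (δ : ℝ) : Prop :=
  ∃ F : ℂ → ℂ, (∀ s : ℂ, 1 - δ < s.re → AnalyticAt ℂ F s) ∧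
    ∀ s : ℂ, 1 < s.re → F s = zeta L s / zeta K s

/-- `ζ_L / ζ_K` is an entire function (the conclusion of the frozen statement S17947). -/
def IsEntire : Prop :=
  ∃ g : ℂ → ℂ, Differentiable ℂ g ∧ ∀ s : ℂ, 1 < s.re → g s = zeta L s / zeta K s

/-- `ζ_L / ζ_K` has no poles at positive real numbers: it has an analytic continuation to a
neighbourhood of each of them. -/
def NoRealPoles : Prop :=
  ∃ G : ℂ → ℂ, (∀ x : ℝ, 0 < x → AnalyticAt ℂ G x) ∧
    ∀ x : ℝ, 1 < x → G x = zeta L x / zeta K x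

end

/-- The Gaussian average of the `c_n / n` in the window around `x`,
`√(A / (π log x)) ∑ c_n n^{-1} exp (-A (log (n/x))² / log x)`. -/
noncomputable def average (c : ℕ → ℝ) (A x : ℝ) : ℝ :=
  √(A / (Real.pi * Real.log x)) * ∑' n : ℕ, c n * (n : ℝ) ^ (-1 : ℝ) *
    Real.exp (-(A * (Real.log n - Real.log x) ^ 2 / Real.log x))

/-- **Theorem.**  Let `L / K` be an extension of number fields.  There are real numbers `c_n` with
`∑_{N(I) = n} 1 = ∑_{dm = n} (∑_{N(J) = d} 1) c_m`, the series `∑ c_n n^{-s}` converges absolutely to `ζ_L(s) / ζ_K(s)` for `Re s > 1`, and the following holds.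

1. For every `δ > 0` the following are equivalent: `ζ_L / ζ_K` has an analytic continuation to
   `Re s > 1 - δ`; for all `0 < κ < δ` and all `A ≥ κ / 2` the averages are
   `O(x^{-(κ - κ²/(4A))})`; for all `0 < κ < δ` and all large `A` they are `O(x^{-κ})`; for all
   `0 < κ < δ` there are arbitrarily large `A` for which they are `O(x^{-κ})`.
2. The following are equivalent: `ζ_L / ζ_K` is entire; the averages are `O(x^{-A})` for every `A > 0`;
   there is ONE `κ > 1/2` such that they are `O(x^{-κ})` for arbitrarily large `A`.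
3. If `ζ_L / ζ_K` has no poles at positive real numbers, then the following are equivalent:
   `ζ_L / ζ_K` is entire; there is one `κ > 1/2` such that for arbitrarily large `A` the average at `x`
   is at least `- C x^{-κ}` for all large `x`; the same with at most `C x^{-κ}`.

For `K = ℚ` and all number fields `L` the assumption in 3 holds. -/
theorem result :
    (∀ (K L : Type) [Field K] [Field L] [NumberField K] [NumberField L] [Algebra K L],
      ∃ c : ℕ → ℝ, IsQuotient K L c ∧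
        (∀ s : ℂ, 1 < s.re → LSeriesHasSum (fun n => (c n : ℂ)) s (zeta L s / zeta K s)) ∧
        (∀ δ : ℝ, 0 < δ → List.TFAE [
          Continues K L δ,
          ∀ κ : ℝ, 0 < κ → κ < δ → ∀ A : ℝ, κ ≤ 2 * A → ∃ C : ℝ, ∀ x : ℝ, 2 ≤ x →
            |average c A x| ≤ C * x ^ (-(κ - κ ^ 2 / (4 * A))),
          ∀ κ : ℝ, 0 < κ → κ < δ → ∃ A₀ : ℝ, ∀ A : ℝ, A₀ ≤ A → ∃ C : ℝ, ∀ x : ℝ, 2 ≤ x →
            |average c A x| ≤ C * x ^ (-κ),
          ∀ κ : ℝ, 0 < κ → κ < δ → ∀ A₀ : ℝ, ∃ A : ℝ, A₀ ≤ A ∧ ∃ C X : ℝ, ∀ x : ℝ, X ≤ x →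
            |average c A x| ≤ C * x ^ (-κ)]) ∧
        List.TFAE [
          IsEntire K L,
          ∀ A : ℝ, 0 < A → ∃ C : ℝ, ∀ x : ℝ, 2 ≤ x → |average c A x| ≤ C * x ^ (-A),
          ∃ κ : ℝ, 1 / 2 < κ ∧ ∀ A₀ : ℝ, ∃ A : ℝ, A₀ ≤ A ∧ ∃ C X : ℝ, ∀ x : ℝ, X ≤ x →
            |average c A x| ≤ C * x ^ (-κ)] ∧
        (NoRealPoles K L → List.TFAE [
          IsEntire K L,
          ∃ κ : ℝ, 1 / 2 < κ ∧ ∀ A₀ : ℝ, ∃ A : ℝ, A₀ ≤ A ∧ ∃ C X : ℝ, ∀ x : ℝ, X ≤ x →
            -(C * x ^ (-κ)) ≤ average c A x,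
          ∃ κ : ℝ, 1 / 2 < κ ∧ ∀ A₀ : ℝ, ∃ A : ℝ, A₀ ≤ A ∧ ∃ C X : ℝ, ∀ x : ℝ, X ≤ x →
            average c A x ≤ C * x ^ (-κ)])) ∧
    ∀ (L : Type) [Field L] [NumberField L], NoRealPoles ℚ L := by
  have hz : ∀ (F : Type) [Field F] [NumberField F], zeta F = dedekindZeta F := fun F _ _ => rfl
  refine ⟨fun K L _ _ _ _ _ => ?_, fun L _ _ => ?_⟩
  · obtain ⟨c, hc0, hc1, hc2⟩ := Pool.Agent.N881.GW.DQ.exists_quot K L
    have he : (1 : ℝ) ≠ 0 := one_ne_zero
    have ha : ∀ s : ℂ, (1 : ℝ) < s.re →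
        LSeriesHasSum (fun n => (c n : ℂ)) s (zeta L s / zeta K s) := by
      intro s hs
      rw [hz, hz]
      exact hc2 s hs
    have havg : ∀ A x, average c A x = Pool.Agent.N881.GW.rwin c 1 A x := fun A x => rfl
    have hent : IsEntire K L ↔ Pool.Agent.N881.GW.CtP 1 (fun s => zeta L s / zeta K s) := Iff.rfl
    have hcont : ∀ δ : ℝ, Continues K L δ ↔
        Pool.Agent.N881.GW.CtS 1 (fun s => zeta L s / zeta K s) δ := by
      intro δ
      unfold Continues Pool.Agent.N881.GW.CtS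
      refine exists_congr fun F => and_congr_left fun _ => ?_
      have hop : IsOpen {s : ℂ | (1 : ℝ) - δ < s.re} :=
        isOpen_lt continuous_const Complex.continuous_re
      refine ⟨fun h s hs => (h s hs).differentiableAt, fun h s hs => ?_⟩
      have hd : DifferentiableOn ℂ F {s : ℂ | (1 : ℝ) - δ < s.re} := fun w hw =>
        (h w hw).differentiableWithinAt
      exact hd.analyticAt (hop.mem_nhds hs)
    have hext : ∀ δ : ℝ, 1 / 2 < δ → δ ≤ 1 →
        Pool.Agent.N881.GW.CtS 1 (fun s => zeta L s / zeta K s) δ →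
        Pool.Agent.N881.GW.CtP 1 (fun s => zeta L s / zeta K s) := by
      rintro δ h1 h2 ⟨F, hF, hF1⟩
      exact Pool.Agent.N881.GW.DQ.entire_of K L h1 h2 hF hF1
    refine ⟨c, ⟨hc0, hc1⟩, ha, fun δ hδ => ?_, ?_, fun hN => ?_⟩
    · have key := Pool.Agent.N881.GW.ds_one he ha (S := {δ}) (fun b hb => by
        rw [Set.mem_singleton_iff] at hb
        rw [hb]
        exact hδ)
      rw [← Pool.Agent.N881.GW.ctS_iff, ← hcont δ] at key
      have hsing : ∀ {κ : ℝ}, (∃ b ∈ ({δ} : Set ℝ), κ < b) ↔ κ < δ := fun {κ} => by simp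
      simp only [hsing] at key
      exact key
    · exact Pool.Agent.N881.GW.two_sided he ha (by norm_num : (0 : ℝ) < 1 / 2)
        (by norm_num : (1 / 2 : ℝ) < 1) hext
    · obtain ⟨G, hG, hG1⟩ := hN
      have h2 := Pool.Agent.N881.GW.lower_sided he ha (by norm_num : (0 : ℝ) < 1 / 2)
        (by norm_num : (1 / 2 : ℝ) < 1) hext (G := G) (fun x hx => hG x (by linarith)) hG1
      have h3 := Pool.Agent.N881.GW.upper_sided he ha (by norm_num : (0 : ℝ) < 1 / 2)
        (by norm_num : (1 / 2 : ℝ) < 1) hext (G := G) (fun x hx => hG x (by linarith)) hG1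
      tfae_have 1 ↔ 2 := h2
      tfae_have 1 ↔ 3 := h3
      tfae_finish
  · obtain ⟨G, hG, hG1⟩ := Pool.Agent.N881.GW.DQ.no_real_poles L
    exact ⟨G, hG, fun x hx => by rw [hz, hz]; exact hG1 x hx⟩

end Pool.Agent.Results.MP_9fc8a5_nt.OneSidedCriterion
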